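import Pool.Agent.Helper62.GX.Stm
import Pool.Agent.Helper15.CX.Loc

/-!
# Algebra of `LamG`, and the syzygies at the node (several factors)
-/

set_option autoImplicit false

namespace Pool.Agent.Helper15.GX

open Polynomial Finset
open Pool.Agent.Helper62.BM Pool.Agent.Helper62.BW Pool.Agent.Helper62.BX Pool.Agent.Helper62.CX
  Pool.Agent.Helper62.GX

section lam

variable {ι : Type} [Fintype ι] [DecidableEq ι] {R : Type} [CommRing R]

lemma LamG_map {S : Type} [CommRing S] (f : R →+* S) (ρ : ι → ℕ) (a a' : ι → R) :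
    f (LamG ρ a a') = LamG ρ (fun i => f (a i)) (fun i => f (a' i)) := by
  unfold LamG
  rw [map_sum]
  refine sum_congr rfl fun l _ => ?_
  rw [map_mul, map_mul, map_natCast, map_prod]

lemma LamG_add (ρ : ι → ℕ) (a a' a'' : ι → R) :
    LamG ρ a (fun i => a' i + a'' i) = LamG ρ a a' + LamG ρ a a'' := by
  unfold LamG
  rw [← sum_add_distrib]
  refine sum_congr rfl fun l _ => ?_
  ring

lemma LamG_smul (ρ : ι → ℕ) (a a' : ι → R) (c : R) :
    LamG ρ a (fun i => a' i * c) = LamG ρ a a' * c := by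
  unfold LamG
  rw [sum_mul]
  refine sum_congr rfl fun l _ => ?_
  ring

lemma LamG_scale (ρ : ι → ℕ) (c b b' : ι → R) :
    LamG ρ (fun i => c i * b i) (fun i => c i * b' i) = (∏ i, c i) * LamG ρ b b' := by
  unfold LamG
  rw [mul_sum]
  refine sum_congr rfl fun l _ => ?_
  rw [prod_mul_distrib, ← mul_prod_erase univ c (mem_univ l)]
  ring

lemma LamG_scale' (ρ : ι → ℕ) (c c' b : ι → R) :
    LamG ρ (fun i => c i * b i) (fun i => c' i * b i) = LamG ρ c c' * ∏ i, b i := by
  unfold LamG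
  rw [sum_mul]
  refine sum_congr rfl fun l _ => ?_
  rw [prod_mul_distrib, ← mul_prod_erase univ b (mem_univ l)]
  ring

lemma LamG_leib (ρ : ι → ℕ) (ξ ξ' b b' : ι → R) :
    LamG ρ (fun i => ξ i * b i) (fun i => ξ' i * b i + ξ i * b' i) =
      LamG ρ ξ ξ' * (∏ i, b i) + (∏ i, ξ i) * LamG ρ b b' := by
  rw [LamG_add, LamG_scale, LamG_scale']

lemma LamG_log (ρ n : ι → ℕ) (b : ι → R) :
    LamG ρ b (fun l => (n l : R) * b l) = ((∑ l, ρ l * n l : ℕ) : R) * ∏ l, b l := by
  unfold LamG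
  push_cast
  rw [sum_mul]
  refine sum_congr rfl fun l _ => ?_
  rw [← mul_prod_erase univ b (mem_univ l)]
  ring

lemma LamG_of_zero (ρ : ι → ℕ) (a a' : ι → R) (l : ι) (h : a l = 0) :
    LamG ρ a a' = (ρ l : R) * a' l * ∏ j ∈ univ.erase l, a j := by
  unfold LamG
  rw [sum_eq_single l]
  · intro i _ hi
    rw [prod_eq_zero (mem_erase.2 ⟨hi.symm, mem_univ l⟩) h, mul_zero]
  · intro h
    exact absurd (mem_univ l) h

lemma prod_node (i₁ i₂ : ι) (h : i₁ ≠ i₂) (y : R) :
    ∏ l, (if l = i₁ ∨ l = i₂ then y else 1) = y ^ 2 := by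
  have h1 : ∀ l, (if l = i₁ ∨ l = i₂ then y else 1) =
      (if l = i₁ then y else 1) * (if l = i₂ then y else 1) := by
    intro l
    by_cases h1 : l = i₁
    · subst h1
      simp [h]
    · simp [h1]
  rw [prod_congr rfl fun l _ => h1 l, prod_mul_distrib, prod_ite_eq', prod_ite_eq']
  simp
  ring

lemma LamG_node (ρ : ι → ℕ) (i₁ i₂ : ι) (h : i₁ ≠ i₂) (y : R) :
    LamG ρ (fun l => if l = i₁ ∨ l = i₂ then y else 1)
      (fun l => if l = i₁ ∨ l = i₂ then 1 else 0) = ((ρ i₁ + ρ i₂ : ℕ) : R) * y := by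
  have h1 : ∀ l, (l = i₁ ∨ l = i₂) →
      ∏ j ∈ univ.erase l, (if j = i₁ ∨ j = i₂ then y else 1) = y := by
    rintro l (rfl | rfl)
    · rw [prod_eq_single i₂]
      · simp
      · intro j hj hj2
        rw [mem_erase] at hj
        rw [if_neg]
        rintro (h3 | h3)
        · exact hj.1 h3
        · exact hj2 h3
      · intro h2
        exact absurd (mem_erase.2 ⟨h.symm, mem_univ _⟩) h2
    · rw [prod_eq_single i₁]
      · simp
      · intro j hj hj2
        rw [mem_erase] at hj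
        rw [if_neg]
        rintro (h3 | h3)
        · exact hj2 h3
        · exact hj.1 h3
      · intro h2
        exact absurd (mem_erase.2 ⟨h, mem_univ _⟩) h2
  unfold LamG
  have h2 : ∀ l, (ρ l : R) * (if l = i₁ ∨ l = i₂ then 1 else 0) *
      ∏ j ∈ univ.erase l, (if j = i₁ ∨ j = i₂ then y else 1) =
      (if l = i₁ then (ρ i₁ : R) * y else 0) + (if l = i₂ then (ρ i₂ : R) * y else 0) := by
    intro l
    by_cases e1 : l = i₁
    · rw [h1 l (Or.inl e1)]
      subst e1
      simp [h]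
    · by_cases e2 : l = i₂
      · rw [h1 l (Or.inr e2)]
        subst e2
        simp [e1]
      · simp [e1, e2]
  rw [sum_congr rfl fun l _ => h2 l, sum_add_distrib, sum_ite_eq', sum_ite_eq']
  simp
  ring

lemma derivative_prodG (a : ι → R[X]) :
    derivative (∏ i, a i) = LamG (fun _ => 1) a (fun i => derivative (a i)) := by
  unfold LamG
  rw [derivative_prod_finset]
  refine sum_congr rfl fun l _ => ?_
  push_cast
  ring

end lam

section cop

variable {ι : Type} [Fintype ι] [DecidableEq ι]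

lemma cop_nat {K : Type} [Field K] (n : ℕ) (hn : (n : K) ≠ 0) (f : K[X]) :
    IsCoprime f (n : K[X]) := by
  rw [← C_eq_natCast]
  refine ⟨0, C ((n : K)⁻¹), ?_⟩
  rw [zero_mul, zero_add, ← C_mul, inv_mul_cancel₀ hn, C_1]

/-- `∏ b` and `LamG ρ b b'` are coprime. -/
lemma cop_LamG {K : Type} [Field K] [CharZero K] (ρ : ι → ℕ) (hρ : ∀ l, 0 < ρ l) (b : ι → K[X])
    (hsep : (∏ i, b i).Separable) :
    IsCoprime (∏ i, b i) (LamG ρ b (fun i => derivative (b i))) := by
  refine IsCoprime.prod_left fun l _ => ?_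
  have hdv : ∀ σ : ι → ℕ, b l ∣ ∑ i ∈ univ.erase l,
      (σ i : K[X]) * derivative (b i) * ∏ j ∈ univ.erase i, b j := fun σ =>
    dvd_sum fun i hi => dvd_mul_of_dvd_right
      (dvd_prod_of_mem _ (mem_erase.2 ⟨(ne_of_mem_erase hi).symm, mem_univ _⟩)) _
  have hex : ∀ σ : ι → ℕ, ∃ z, LamG σ b (fun i => derivative (b i)) =
      (σ l : K[X]) * derivative (b l) * (∏ j ∈ univ.erase l, b j) + b l * z := by
    intro σ
    obtain ⟨z, hz⟩ := hdv σ
    refine ⟨z, ?_⟩
    unfold LamG
    rw [← add_sum_erase univ _ (mem_univ l), hz]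
  have h1 : IsCoprime (b l) (LamG (fun _ => 1) b (fun i => derivative (b i))) := by
    rw [← derivative_prodG]
    exact IsCoprime.of_isCoprime_of_dvd_left hsep (dvd_prod_of_mem _ (mem_univ l))
  obtain ⟨z, hz⟩ := hex fun _ => 1
  rw [hz] at h1
  have h2 := h1.of_add_mul_left_right
  push_cast at h2
  rw [one_mul] at h2
  obtain ⟨y, hy⟩ := hex ρ
  rw [hy]
  refine IsCoprime.add_mul_left_right ?_ _
  rw [mul_assoc]
  refine IsCoprime.mul_right (cop_nat _ ?_ _) h2
  have := hρ l
  have h3 : ρ l ≠ 0 := by omega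
  exact_mod_cast h3

/-- Coprimality at the node. -/
lemma cop_nodeG {K : Type} [Field K] [CharZero K] (m : ℕ) (hm : 0 < m) (ρ : ι → ℕ)
    (hρ : ∀ l, 0 < ρ l) (b : ι → K[X]) (x₀ : K) (hsep : (∏ i, b i).Separable)
    (hne : (∏ i, b i).eval x₀ ≠ 0) :
    IsCoprime ((X - C x₀) * ∏ i, b i) ((m : K[X]) * (∏ i, b i) +
      (X - C x₀) * LamG ρ b (fun i => derivative (b i))) := by
  have hm0 : (m : K) ≠ 0 := by
    have : m ≠ 0 := by omega
    exact_mod_cast this
  have hX : ∀ f : K[X], f.eval x₀ ≠ 0 → IsCoprime (X - C x₀) f := by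
    intro f hf
    rw [(irreducible_X_sub_C x₀).coprime_iff_not_dvd, dvd_iff_isRoot]
    exact hf
  refine IsCoprime.mul_left ?_ ?_
  · apply hX
    simp only [eval_add, eval_mul, eval_sub, eval_X, eval_C, sub_self, zero_mul, add_zero,
      eval_natCast]
    exact mul_ne_zero hm0 hne
  · rw [add_comm, mul_comm (m : K[X])]
    refine IsCoprime.add_mul_left_right ?_ _
    exact IsCoprime.mul_right (hX _ hne).symm (cop_LamG ρ hρ b hsep)

end cop

section syz

variable {ι : Type} [Fintype ι] [DecidableEq ι] {A : Type} [CommRing A] [IsDomain A] [CharZero A]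

/-- the syzygies at the node -/
lemma node_syzG (m N : ℕ) (hm : 0 < m) (ρ : ι → ℕ) (hρ : ∀ l, 0 < ρ l) (x₀ : A)
    (a₁ : ι → A[X]) (P₀ S₀ : A[X]) (ham : ∀ l, (a₁ l).Monic)
    (hgd : ((X - C x₀) * ∏ l, a₁ l).natDegree = N)
    (hsep : ((∏ l, a₁ l).map (algebraMap A (FractionRing A))).Separable)
    (hne : (∏ l, a₁ l).eval x₀ ≠ 0) (hSd0 : S₀.natDegree ≤ N)
    (hrel0 : (m : A[X]) * P₀ * ((X - C x₀) * ∏ l, a₁ l) + S₀ * ((m : A[X]) * (∏ l, a₁ l) +
      (X - C x₀) * LamG ρ a₁ (fun l => derivative (a₁ l))) = 0) :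
    ∃ σ : A, S₀ = C σ * ((X - C x₀) * ∏ l, a₁ l) ∧
      (m : A[X]) * P₀ = -(C σ * ((m : A[X]) * (∏ l, a₁ l) +
      (X - C x₀) * LamG ρ a₁ (fun l => derivative (a₁ l)))) := by
  set g : A[X] := (X - C x₀) * ∏ l, a₁ l with hg
  set V : A[X] := LamG ρ a₁ (fun l => derivative (a₁ l)) with hV
  have hgm : g.Monic := (monic_X_sub_C x₀).mul (monic_prod_of_monic _ _ fun l _ => ham l)
  have hdvd : g ∣ S₀ := by
    have hinj : Function.Injective (algebraMap A (FractionRing A)) :=
      IsFractionRing.injective A (FractionRing A)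
    rw [← Polynomial.map_dvd_map _ hinj hgm]
    have : CharZero (FractionRing A) := charZero_of_injective_algebraMap hinj
    have hpm : ∏ l, (a₁ l).map (algebraMap A (FractionRing A)) =
        (∏ l, a₁ l).map (algebraMap A (FractionRing A)) := (Polynomial.map_prod _ _ _).symm
    have hne' : (∏ l, (a₁ l).map (algebraMap A (FractionRing A))).eval
        (algebraMap A (FractionRing A) x₀) ≠ 0 := by
      rw [hpm, eval_map_apply]
      exact fun h => hne (hinj (by rw [h, map_zero]))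
    have hsep' : (∏ l, (a₁ l).map (algebraMap A (FractionRing A))).Separable := by
      rwa [hpm]
    have hc := cop_nodeG m hm ρ hρ _ _ hsep' hne'
    have h2 : ((m : A[X]) * (∏ l, a₁ l) + (X - C x₀) * V).map (algebraMap A (FractionRing A)) =
        (m : (FractionRing A)[X]) * (∏ l, (a₁ l).map (algebraMap A (FractionRing A))) +
          (X - C (algebraMap A (FractionRing A) x₀)) *
          LamG ρ (fun l => (a₁ l).map (algebraMap A (FractionRing A)))
            (fun l => derivative ((a₁ l).map (algebraMap A (FractionRing A)))) := by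
      have h4 : V.map (algebraMap A (FractionRing A)) =
          LamG ρ (fun l => (a₁ l).map (algebraMap A (FractionRing A)))
            (fun l => derivative ((a₁ l).map (algebraMap A (FractionRing A)))) := by
        rw [hV, ← coe_mapRingHom, LamG_map]
        simp only [coe_mapRingHom, derivative_map]
      rw [Polynomial.map_add, Polynomial.map_mul, Polynomial.map_mul, h4, hpm,
        Polynomial.map_natCast, Polynomial.map_sub, map_X, map_C]
    have h3 : g.map (algebraMap A (FractionRing A)) = (X - C (algebraMap A (FractionRing A) x₀)) *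
        (∏ l, (a₁ l).map (algebraMap A (FractionRing A))) := by
      rw [hg, Polynomial.map_mul, hpm, Polynomial.map_sub, map_X, map_C]
    rw [← h2, ← h3] at hc
    refine hc.dvd_of_dvd_mul_right ?_
    rw [← Polynomial.map_mul]
    exact Polynomial.map_dvd _ ⟨-((m : A[X]) * P₀), by linear_combination hrel0⟩
  obtain ⟨q, hq⟩ := hdvd
  obtain ⟨σ, hσ⟩ : ∃ σ : A, S₀ = C σ * g := by
    by_cases hq0 : q = 0
    · exact ⟨0, by rw [hq, hq0]; simp⟩
    · have h1 : q.natDegree = 0 := by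
        rw [hq, hgm.natDegree_mul' hq0, hgd] at hSd0
        omega
      obtain ⟨σ, hσ⟩ := natDegree_eq_zero.1 h1
      exact ⟨σ, by rw [hq, ← hσ]; ring⟩
  refine ⟨σ, hσ, ?_⟩
  have h1 : g * ((m : A[X]) * P₀ + C σ * ((m : A[X]) * (∏ l, a₁ l) + (X - C x₀) * V)) = 0 := by
    rw [hσ] at hrel0
    rw [← hrel0]
    ring
  exact eq_neg_of_add_eq_zero_left ((mul_eq_zero.1 h1).resolve_left hgm.ne_zero)

/-- The reduction at the node. -/
lemma node_red (ρ nd : ι → ℕ) (i₁ i₂ : ι) (m N : ℕ) (h12 : ρ i₁ + ρ i₂ = m)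
    (hN : N + 1 = ∑ l, nd l) (a : ι → A[X][X]) (hG : GenG nd a) (t₀ x₀ : A) (a₁ : ι → A[X])
    (hNd : NodeG i₁ i₂ a t₀ x₀ a₁) :
    (∀ l, (a₁ l).Monic) ∧ ((X - C x₀) * ∏ l, a₁ l).natDegree = N ∧
      (∏ l, a l).map (evalRingHom t₀) = (X - C x₀) ^ 2 * ∏ l, a₁ l ∧
      (LamG ρ a (fun l => derivative (a l))).map (evalRingHom t₀) =
        (X - C x₀) * ((m : A[X]) * (∏ l, a₁ l) +
          (X - C x₀) * LamG ρ a₁ (fun l => derivative (a₁ l))) := by
  obtain ⟨hmd, -⟩ := hG
  obtain ⟨h1, ha0, hsep, hne⟩ := hNd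
  set ev := evalRingHom t₀ with hev
  have ha1 : ∀ l, (a l).map ev = (if l = i₁ ∨ l = i₂ then X - C x₀ else 1) * a₁ l := by
    intro l
    rw [ha0 l]
    split_ifs
    · rfl
    · rw [one_mul]
  have hxm : ∀ l, (if l = i₁ ∨ l = i₂ then (X - C x₀ : A[X]) else 1).Monic := by
    intro l
    split_ifs
    · exact monic_X_sub_C x₀
    · exact monic_one
  have ham : ∀ l, (a₁ l).Monic := by
    intro l
    have h2 : ((if l = i₁ ∨ l = i₂ then X - C x₀ else 1) * a₁ l).Monic := by
      rw [← ha1]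
      exact (hmd l).1.map _
    exact (hxm l).of_mul_monic_left h2
  have hprod : (∏ l, a l).map ev = (X - C x₀) ^ 2 * ∏ l, a₁ l := by
    rw [Polynomial.map_prod, prod_congr rfl fun l _ => ha1 l, prod_mul_distrib,
      prod_node i₁ i₂ h1]
  refine ⟨ham, ?_, hprod, ?_⟩
  · have hpm : (∏ l, a₁ l).Monic := monic_prod_of_monic _ _ fun l _ => ham l
    have hPm : (∏ l, a l).Monic := monic_prod_of_monic _ _ fun l _ => (hmd l).1
    have h2 : ((∏ l, a l).map ev).natDegree = N + 1 := by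
      rw [hPm.natDegree_map, natDegree_prod_of_monic _ _ fun l _ => (hmd l).1, hN]
      exact sum_congr rfl fun l _ => (hmd l).2
    rw [hprod, pow_two, mul_assoc, (monic_X_sub_C x₀).natDegree_mul ((monic_X_sub_C x₀).mul hpm),
      natDegree_X_sub_C] at h2
    omega
  · rw [← coe_mapRingHom, LamG_map]
    have h3 : (fun i => (mapRingHom ev) (a i)) =
        fun l => (if l = i₁ ∨ l = i₂ then X - C x₀ else 1) * a₁ l := by
      funext l
      exact ha1 l
    have h4 : (fun i => (mapRingHom ev) (derivative (a i))) =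
        fun l => (if l = i₁ ∨ l = i₂ then (1 : A[X]) else 0) * a₁ l +
          (if l = i₁ ∨ l = i₂ then X - C x₀ else 1) * derivative (a₁ l) := by
      funext l
      rw [coe_mapRingHom, ← derivative_map, ha1 l, derivative_mul]
      congr 2
      split_ifs
      · rw [derivative_X_sub_C]
      · rw [derivative_one]
    rw [h3, h4, LamG_leib, LamG_node ρ i₁ i₂ h1, prod_node i₁ i₂ h1, h12]
    ring

end syz

end Pool.Agent.Helper15.GX
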