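import Pool.Agent.Helper15.GX.Val

/-!
# The local structure at the node, several factors (package G_Loc)
-/

set_option autoImplicit false

namespace Pool.Agent.Helper15.GX

open Polynomial Finset
open Pool.Agent.Helper62.BM Pool.Agent.Helper62.BW Pool.Agent.Helper62.BX Pool.Agent.Helper62.CX
  Pool.Agent.Helper62.GX
open Pool.Agent.Helper15.CX (cop_clear natDegree_dt natDegree_der)

section

variable {ι : Type} [Fintype ι] [DecidableEq ι]

lemma natDegree_LamG_le {R : Type} [CommRing R] (N : ℕ) (ρ nd : ι → ℕ) (hN : N + 1 = ∑ l, nd l)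
    (a a' : ι → R[X]) (ha : ∀ l, (a l).natDegree ≤ nd l)
    (ha' : ∀ l, (a' l).natDegree + 1 ≤ nd l ∨ a' l = 0) : (LamG ρ a a').natDegree ≤ N := by
  unfold LamG
  refine natDegree_sum_le_of_forall_le _ _ fun l _ => ?_
  rcases ha' l with h | h
  · refine natDegree_mul_le.trans ?_
    have h1 : ((ρ l : R[X]) * a' l).natDegree ≤ (a' l).natDegree := by
      rw [← C_eq_natCast]
      exact natDegree_C_mul_le _ _
    have h2 : (∏ j ∈ univ.erase l, a j).natDegree ≤ ∑ j ∈ univ.erase l, nd j :=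
      (natDegree_prod_le _ _).trans (sum_le_sum fun j _ => ha j)
    have h3 := add_sum_erase univ nd (mem_univ l)
    omega
  · rw [h]
    simp

variable {A : Type} [CommRing A] [IsDomain A] [CharZero A]

/-- one step -/
lemma stepG (m N : ℕ) (ρ nd : ι → ℕ) (i₁ i₂ : ι) (hρ : ∀ l, 0 < ρ l ∧ ρ l < m)
    (h12 : ρ i₁ + ρ i₂ = m) (hN : N + 1 = ∑ l, nd l) (a : ι → A[X][X]) (hG : GenG nd a)
    (t₀ x₀ : A) (a₁ : ι → A[X]) (hNd : NodeG i₁ i₂ a t₀ x₀ a₁) (l : ℕ)
    (e : A[X]) (P S : A[X][X]) (hS : S.natDegree ≤ N)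
    (h : (m : A[X][X]) * P * (∏ i, a i) + S * LamG ρ a (fun i => derivative (a i)) =
      Polynomial.C ((X - Polynomial.C t₀) ^ 2 * e) * X ^ l * LamG ρ a (fun i => dt (a i))) :
    ∃ P' S' : A[X][X], S'.natDegree ≤ N ∧
      (m : A[X][X]) * P' * (∏ i, a i) + S' * LamG ρ a (fun i => derivative (a i)) =
      Polynomial.C ((X - Polynomial.C t₀) * e) * X ^ l * LamG ρ a (fun i => dt (a i)) := by
  obtain ⟨ν, -, hval⟩ := value_nuG m N ρ nd i₁ i₂ hρ h12 hN a hG t₀ x₀ a₁ hNd
  obtain ⟨ham, hgd, hprod, hLx0⟩ := node_red ρ nd i₁ i₂ m N h12 hN a hG t₀ x₀ a₁ hNd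
  obtain ⟨-, -, hsep, hne⟩ := hNd
  have hmpos : 0 < m := lt_of_le_of_lt (Nat.zero_le _) (hρ i₁).2
  have hm0 : (m : A) ≠ 0 := by
    have : m ≠ 0 := by omega
    exact_mod_cast this
  have hPv : (P.map (evalRingHom t₀)).eval x₀ = 0 := by
    have h1 := hval P S ((X - C t₀) * e) l (by
      rw [h]
      congr 3
      ring)
    rw [eval_mul, eval_sub, eval_X, eval_C, sub_self, zero_mul, mul_zero, zero_mul] at h1
    exact (mul_eq_zero.1 h1).resolve_left hm0
  set ev := evalRingHom t₀ with hev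
  set Lx := LamG ρ a (fun i => derivative (a i)) with hLx
  set Lt := LamG ρ a (fun i => dt (a i)) with hLt
  set B : A[X] := ∏ l, a₁ l with hB
  set V : A[X] := LamG ρ a₁ (fun l => derivative (a₁ l)) with hV
  have hrel0 : (m : A[X]) * P.map ev * ((X - C x₀) * B) +
      S.map ev * ((m : A[X]) * B + (X - C x₀) * V) = 0 := by
    have h2 := congrArg (Polynomial.map ev) h
    have hW : ev ((X - Polynomial.C t₀) ^ 2 * e) = 0 := by
      rw [hev]
      simp
    rw [Polynomial.map_add, Polynomial.map_mul, Polynomial.map_mul, Polynomial.map_mul, hprod,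
      hLx0, Polynomial.map_mul, Polynomial.map_mul, map_C, hW, Polynomial.map_natCast, C_0,
      zero_mul, zero_mul] at h2
    have h3 : (X - C x₀) * ((m : A[X]) * P.map ev * ((X - C x₀) * B) +
        S.map ev * ((m : A[X]) * B + (X - C x₀) * V)) = 0 := by
      rw [← h2]
      ring
    exact (mul_eq_zero.1 h3).resolve_left (X_sub_C_ne_zero x₀)
  obtain ⟨σ, hσ, hPe⟩ := node_syzG m N hmpos ρ (fun l => (hρ l).1) x₀ a₁ _ _ ham hgd hsep hne
    (natDegree_map_le.trans hS) hrel0
  have hσ0 : σ = 0 := by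
    have h1 := congrArg (Polynomial.eval x₀) hPe
    rw [← hB] at h1
    simp only [eval_mul, eval_neg, eval_add, eval_sub, eval_X, eval_C, sub_self, zero_mul, add_zero,
      eval_natCast, hPv, mul_zero] at h1
    have h2 := neg_eq_zero.1 h1.symm
    rcases mul_eq_zero.1 h2 with h3 | h3
    · exact h3
    · exact absurd h3 (mul_ne_zero hm0 hne)
  rw [hσ0, C_0, zero_mul] at hσ
  rw [hσ0, C_0, zero_mul, neg_zero] at hPe
  have hmX : (m : A[X]) ≠ 0 := by
    rw [← C_eq_natCast]
    exact C_ne_zero.2 hm0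
  have hPe' : P.map ev = 0 := (mul_eq_zero.1 hPe).resolve_left hmX
  have hdiv : ∀ Q : A[X][X], Q.map ev = 0 → C (X - C t₀) ∣ Q := by
    intro Q hQ
    rw [C_dvd_iff_dvd_coeff]
    intro i
    rw [dvd_iff_isRoot]
    have := congrArg (fun q => Polynomial.coeff q i) hQ
    rw [coeff_map, coeff_zero] at this
    exact this
  obtain ⟨P', hP'⟩ := hdiv P hPe'
  obtain ⟨S', hS'⟩ := hdiv S hσ
  have hX : (X - C t₀ : A[X]) ≠ 0 := X_sub_C_ne_zero t₀
  refine ⟨P', S', ?_, ?_⟩
  · rw [hS', natDegree_C_mul hX] at hS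
    exact hS
  · have hCX : (C (X - C t₀) : A[X][X]) ≠ 0 := fun h0 => hX (C_eq_zero.1 h0)
    apply mul_left_cancel₀ hCX
    rw [hP', hS'] at h
    have e1 : (C ((X - C t₀) ^ 2 * e) : A[X][X]) = C (X - C t₀) * C ((X - C t₀) * e) := by
      rw [← C_mul]
      congr 1
      ring
    rw [e1] at h
    linear_combination h

end

theorem g_Loc : G_Loc := by
  intro ι _ _ A _ _ _ m N ρ nd i₁ i₂ hρ h12 hN a hG t₀ x₀ a₁ hNd
  have hG' := hG
  obtain ⟨hmd, hsepF⟩ := hG'
  have hmpos : 0 < m := lt_of_le_of_lt (Nat.zero_le _) (hρ i₁).2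
  have hm0 : (m : A) ≠ 0 := by
    have : m ≠ 0 := by omega
    exact_mod_cast this
  have habm : (∏ i, a i).Monic := monic_prod_of_monic _ _ fun l _ => (hmd l).1
  have habd : (∏ i, a i).natDegree = N + 1 := by
    rw [natDegree_prod_of_monic _ _ fun l _ => (hmd l).1, hN]
    exact sum_congr rfl fun l _ => (hmd l).2
  set Lx := LamG ρ a (fun i => derivative (a i)) with hLx
  set Lt := LamG ρ a (fun i => dt (a i)) with hLt
  set PP : A[X][X] := ∏ i, a i with hPQ
  have hLxd : Lx.natDegree ≤ N :=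
    natDegree_LamG_le N ρ nd hN a _ (fun l => (hmd l).2.le)
      (fun l => natDegree_der (a l) (nd l) (hmd l).2)
  have hLtd : Lt.natDegree ≤ N :=
    natDegree_LamG_le N ρ nd hN a _ (fun l => (hmd l).2.le)
      (fun l => natDegree_dt (a l) (hmd l).1 (nd l) (hmd l).2)
  -- the Bezout relation
  have hcop : IsCoprime (PP.map (algebraMap A[X] (FractionRing A[X])))
      (Lx.map (algebraMap A[X] (FractionRing A[X]))) := by
    have : CharZero (FractionRing A[X]) :=
      charZero_of_injective_algebraMap (IsFractionRing.injective A[X] (FractionRing A[X]))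
    rw [hPQ, Polynomial.map_prod] at hsepF ⊢
    have h1 := cop_LamG ρ (fun l => (hρ l).1) _ hsepF
    have h2 : Lx.map (algebraMap A[X] (FractionRing A[X])) =
        LamG ρ (fun l => (a l).map (algebraMap A[X] (FractionRing A[X])))
          (fun l => derivative ((a l).map (algebraMap A[X] (FractionRing A[X])))) := by
      rw [hLx, ← coe_mapRingHom, LamG_map]
      simp only [coe_mapRingHom, derivative_map]
    rw [h2]
    exact h1
  obtain ⟨u, v, c, hc, huv⟩ := cop_clear _ _ hcop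
  -- the ideal
  set I : Set A[X] := {d | ∀ l : Fin N, ∃ P S : A[X][X], S.natDegree ≤ N ∧
    (m : A[X][X]) * P * PP + S * Lx = Polynomial.C d * X ^ (l : ℕ) * Lt} with hI
  have hstep : ∀ e : A[X], (X - C t₀) ^ 2 * e ∈ I → (X - C t₀) * e ∈ I := by
    intro e he l
    obtain ⟨P, S, hS, h⟩ := he l
    exact stepG m N ρ nd i₁ i₂ hρ h12 hN a hG t₀ x₀ a₁ hNd l e P S hS h
  have hrI : (m : A[X]) * c ∈ I := by
    intro l
    refine ⟨u * X ^ (l : ℕ) * Lt + (v * X ^ (l : ℕ) * Lt) /ₘ PP * Lx,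
      (m : A[X][X]) * ((v * X ^ (l : ℕ) * Lt) %ₘ PP), ?_, ?_⟩
    · have h1 := natDegree_modByMonic_lt (v * X ^ (l : ℕ) * Lt) habm (by
        intro h0
        rw [h0, natDegree_one] at habd
        omega)
      have h2 : ((m : A[X][X]) * ((v * X ^ (l : ℕ) * Lt) %ₘ PP)).natDegree ≤
          ((v * X ^ (l : ℕ) * Lt) %ₘ PP).natDegree := by
        rw [← C_eq_natCast]
        exact natDegree_C_mul_le _ _
      omega
    · have h5 := modByMonic_add_div (v * X ^ (l : ℕ) * Lt) PP
      have h6 : Polynomial.C ((m : A[X]) * c) = (m : A[X][X]) * (u * PP + v * Lx) := by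
        rw [huv, C_mul, C_eq_natCast]
      rw [h6]
      linear_combination ((m : A[X][X]) * Lx) * h5
  have hmc : (m : A[X]) * c ≠ 0 := by
    refine mul_ne_zero ?_ hc
    rw [← C_eq_natCast]
    exact C_ne_zero.2 hm0
  have hex : ∃ d : A[X], d ∈ I ∧ ¬ (X - C t₀) ^ 2 ∣ d := by
    have : ∀ n : ℕ, ∀ d : A[X], d ≠ 0 → d.natDegree ≤ n → d ∈ I →
        ∃ d : A[X], d ∈ I ∧ ¬ (X - C t₀) ^ 2 ∣ d := by
      intro n
      induction n with
      | zero =>
        intro d hd0 hdn hd
        refine ⟨d, hd, fun ⟨e, he⟩ => ?_⟩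
        have he0 : e ≠ 0 := by
          rintro rfl
          exact hd0 (by rw [he, mul_zero])
        have := ((monic_X_sub_C t₀).pow 2).natDegree_mul' he0
        rw [← he, natDegree_pow, natDegree_X_sub_C] at this
        omega
      | succ n ih =>
        intro d hd0 hdn hd
        by_cases hdv : (X - C t₀) ^ 2 ∣ d
        · obtain ⟨e, he⟩ := hdv
          have he0 : e ≠ 0 := by
            rintro rfl
            exact hd0 (by rw [he, mul_zero])
          have k1 := ((monic_X_sub_C t₀).pow 2).natDegree_mul' he0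
          rw [← he, natDegree_pow, natDegree_X_sub_C] at k1
          have k2 := (monic_X_sub_C t₀).natDegree_mul' he0
          rw [natDegree_X_sub_C] at k2
          exact ih ((X - C t₀) * e) (mul_ne_zero (X_sub_C_ne_zero t₀) he0) (by omega)
            (hstep e (he ▸ hd))
        · exact ⟨d, hd, hdv⟩
    exact this _ _ hmc le_rfl hrI
  obtain ⟨d, hd, hnd⟩ := hex
  have hfin : ∀ w : A[X], w.eval t₀ ≠ 0 → (X - C t₀) * w ∈ I →
      ∃ (w : A[X]) (P S : Fin N → A[X][X]), w.eval t₀ ≠ 0 ∧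
      RelG m ρ N a ((X - Polynomial.C t₀) * w) P S := by
    intro w hw hwI
    choose P S hS h using hwI
    refine ⟨w, P, S, hw, fun l => ⟨?_, hS l, h l⟩⟩
    by_cases hP : P l = 0
    · have := l.2
      rw [hP, natDegree_zero]
      omega
    · have hmP : (m : A[X][X]) * P l ≠ 0 := by
        refine mul_ne_zero ?_ hP
        rw [← C_eq_natCast, ← C_eq_natCast]
        exact C_ne_zero.2 (C_ne_zero.2 hm0)
      have h1 : ((m : A[X][X]) * P l * PP).natDegree = (P l).natDegree + (N + 1) := by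
        rw [natDegree_mul hmP habm.ne_zero, habd]
        congr 1
        rw [← C_eq_natCast]
        refine natDegree_C_mul ?_
        rw [← C_eq_natCast]
        exact C_ne_zero.2 hm0
      have h2 : (m : A[X][X]) * P l * PP =
          Polynomial.C ((X - C t₀) * w) * X ^ (l : ℕ) * Lt - S l * Lx := eq_sub_of_add_eq (h l)
      have h3 : (Polynomial.C ((X - C t₀) * w) * X ^ (l : ℕ) * Lt).natDegree ≤ 2 * N := by
        refine natDegree_mul_le.trans ?_
        have h4 : (Polynomial.C ((X - C t₀) * w) * X ^ (l : ℕ) : A[X][X]).natDegree ≤ l :=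
          natDegree_C_mul_X_pow_le _ _
        have := l.2
        omega
      have h5 : (S l * Lx).natDegree ≤ 2 * N := by
        refine natDegree_mul_le.trans ?_
        have := hS l
        omega
      have h7 : ((m : A[X][X]) * P l * PP).natDegree ≤ 2 * N := by
        rw [h2]
        exact (natDegree_sub_le _ _).trans (max_le h3 h5)
      omega
  by_cases hdr : d.eval t₀ = 0
  · obtain ⟨w, hw⟩ := dvd_iff_isRoot.2 hdr
    refine hfin w (fun h0 => hnd ?_) (hw ▸ hd)
    obtain ⟨w', hw'⟩ := dvd_iff_isRoot.2 h0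
    exact ⟨w', by rw [hw, hw']; ring⟩
  · refine hfin d hdr fun l => ?_
    obtain ⟨P, S, hS, h⟩ := hd l
    refine ⟨C (X - C t₀) * P, C (X - C t₀) * S, ?_, ?_⟩
    · exact (natDegree_C_mul_le _ _).trans hS
    · rw [C_mul]
      linear_combination C (X - C t₀) * h

end Pool.Agent.Helper15.GX
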