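import Pool.Agent.Helper15.GX.Val

/-!
# The residue at a node, several factors (package G_Rk)
-/

set_option autoImplicit false

namespace Pool.Agent.Helper15.GX

open Polynomial Finset
open Pool.Agent.Helper62.BM Pool.Agent.Helper62.BW Pool.Agent.Helper62.BX Pool.Agent.Helper62.CX
  Pool.Agent.Helper62.GX

theorem g_Rk : G_Rk := by
  intro ι _ _ A _ _ _ m N ρ nd i₁ i₂ hρ h12 hN a hG t₀ x₀ a₁ hNd w P S hRel
  obtain ⟨ν, hν, hval⟩ := value_nuG m N ρ nd i₁ i₂ hρ h12 hN a hG t₀ x₀ a₁ hNd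
  refine ⟨ν, hν, ?_⟩
  intro i l
  obtain ⟨ham, hgd, hprod, hLx0⟩ := node_red ρ nd i₁ i₂ m N h12 hN a hG t₀ x₀ a₁ hNd
  obtain ⟨h1, ha0, hsep, hne⟩ := hNd
  obtain ⟨hPd, hSd, hrel⟩ := hRel l
  have hmpos : 0 < m := lt_of_le_of_lt (Nat.zero_le _) (hρ i₁).2
  set ev := evalRingHom t₀ with hev
  set P₀ := (P l).map ev with hP₀
  set S₀ := (S l).map ev with hS₀
  set B : A[X] := ∏ l, a₁ l with hB
  set V : A[X] := LamG ρ a₁ (fun l => derivative (a₁ l)) with hV
  -- the relation at `t₀`
  have hrel0 : (m : A[X]) * P₀ * ((X - C x₀) * B) + S₀ * ((m : A[X]) * B + (X - C x₀) * V) =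
      0 := by
    have h2 := congrArg (Polynomial.map ev) hrel
    have hW : ev ((X - Polynomial.C t₀) * w) = 0 := by
      rw [hev]
      simp
    rw [Polynomial.map_add, Polynomial.map_mul, Polynomial.map_mul, Polynomial.map_mul, hprod,
      hLx0, Polynomial.map_mul, Polynomial.map_mul, map_C, hW, Polynomial.map_natCast, C_0,
      zero_mul, zero_mul, ← hP₀, ← hS₀] at h2
    have h3 : (X - C x₀) * ((m : A[X]) * P₀ * ((X - C x₀) * B) +
        S₀ * ((m : A[X]) * B + (X - C x₀) * V)) = 0 := by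
      rw [← h2]
      ring
    exact (mul_eq_zero.1 h3).resolve_left (X_sub_C_ne_zero x₀)
  have hSd0 : S₀.natDegree ≤ N := (natDegree_map_le).trans hSd
  obtain ⟨σ, hσ, hPe⟩ := node_syzG m N hmpos ρ (fun l => (hρ l).1) x₀ a₁ P₀ S₀ ham hgd hsep hne
    hSd0 hrel0
  rw [← hB] at hσ hPe
  rw [← hV] at hPe
  -- the value of `P`
  have hPv : (m : A) * P₀.eval x₀ = ν * w.eval t₀ * x₀ ^ (l : ℕ) := hval (P l) (S l) w l hrel
  have hσv : (m : A) * -(σ * B.eval x₀) = ν * w.eval t₀ * x₀ ^ (l : ℕ) := by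
    have h2 := congrArg (Polynomial.eval x₀) hPe
    simp only [eval_mul, eval_neg, eval_add, eval_sub, eval_X, eval_C, sub_self, zero_mul, add_zero,
      eval_natCast] at h2
    rw [← hPv, h2]
    ring
  -- the coefficients
  have hMc : (Mc P S i l).eval t₀ = -(P₀ + derivative S₀).coeff i := by
    have h2 : (P l + derivative (S l)).map ev = P₀ + derivative S₀ := by
      rw [Polynomial.map_add, ← derivative_map]
    rw [← h2, coeff_map]
    unfold Mc
    rw [Matrix.of_apply, eval_neg]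
    rfl
  have hVV : LamG (fun j => m - ρ j) a₁ (fun j => derivative (a₁ j)) =
      (m : A[X]) * derivative B - V := by
    rw [hB, derivative_prodG, hV]
    unfold LamG
    rw [mul_sum, ← sum_sub_distrib]
    refine sum_congr rfl fun j _ => ?_
    rw [Nat.cast_sub (hρ j).2.le]
    push_cast
    ring
  have hsum : (m : A[X]) * (P₀ + derivative S₀) = C σ * ((X - C x₀) *
      LamG (fun j => m - ρ j) a₁ (fun j => derivative (a₁ j))) := by
    rw [mul_add, hPe, hσ, hVV]
    simp only [derivative_mul, derivative_sub, derivative_X, derivative_C, zero_mul, zero_add,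
      sub_zero, one_mul]
    ring
  have hco := congrArg (fun f : A[X] => f.coeff i) hsum
  simp only [coeff_C_mul] at hco
  rw [← C_eq_natCast, coeff_C_mul] at hco
  rw [hMc]
  calc (m : A) ^ 2 * B.eval x₀ * -(P₀ + derivative S₀).coeff i
      = -(m * B.eval x₀ * (m * (P₀ + derivative S₀).coeff i)) := by ring
    _ = m * -(σ * B.eval x₀) * ((X - C x₀) *
      LamG (fun j => m - ρ j) a₁ (fun j => derivative (a₁ j))).coeff i := by
        rw [hco]
        ring
    _ = _ := by
        rw [hσv]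
        ring

end Pool.Agent.Helper15.GX
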