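import Pool.Agent.Helper15.GX.Lam
import Pool.Agent.Helper15.VX.Val
import Pool.Agent.Helper82.VX.Root

/-!
# The value at a node (several factors)
-/

set_option autoImplicit false

namespace Pool.Agent.Helper15.GX

open Polynomial Finset
open Pool.Agent.Helper62.BM Pool.Agent.Helper62.BW Pool.Agent.Helper62.BX Pool.Agent.Helper62.CX
  Pool.Agent.Helper62.GX
open Pool.Agent.Helper15.VX (psi Es psi_const psi_lin psi_inj Es_const Es_der X_mul_der)

section

variable {ι : Type} [Fintype ι] [DecidableEq ι] {A : Type} [CommRing A] [IsDomain A]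

/-- The value of `P` at a node, several factors. -/
theorem value_nuG [CharZero A] (m N : ℕ) (ρ nd : ι → ℕ) (i₁ i₂ : ι)
    (hρ : ∀ l, 0 < ρ l ∧ ρ l < m) (h12 : ρ i₁ + ρ i₂ = m) (hN : N + 1 = ∑ l, nd l)
    (a : ι → A[X][X]) (hG : GenG nd a) (t₀ x₀ : A) (a₁ : ι → A[X])
    (hNd : NodeG i₁ i₂ a t₀ x₀ a₁) :
    ∃ ν : ℕ, 0 < ν ∧ ∀ (P S : A[X][X]) (w : A[X]) (l : ℕ),
      (m : A[X][X]) * P * (∏ i, a i) + S * LamG ρ a (fun i => derivative (a i)) =
        Polynomial.C ((X - Polynomial.C t₀) * w) * X ^ l * LamG ρ a (fun i => dt (a i)) →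
      (m : A) * (P.map (evalRingHom t₀)).eval x₀ = ν * w.eval t₀ * x₀ ^ l := by
  obtain ⟨-, -, -, hLx0⟩ := node_red ρ nd i₁ i₂ m N h12 hN a hG t₀ x₀ a₁ hNd
  obtain ⟨hmd, hsepF⟩ := hG
  obtain ⟨h1, ha0, hsep, hne⟩ := hNd
  set φ := algebraMap A (FractionRing A) with hφ
  have hinj : Function.Injective φ := IsFractionRing.injective A (FractionRing A)
  have hCK : CharZero (FractionRing A) := charZero_of_injective_algebraMap hinj
  have hmpos : 0 < m := lt_of_le_of_lt (Nat.zero_le _) (hρ i₁).2
  have hm0 : (m : (FractionRing A)) ≠ 0 := by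
    have : m ≠ 0 := by omega
    exact_mod_cast this
  set ev := evalRingHom t₀ with hev
  set Lx := LamG ρ a (fun i => derivative (a i)) with hLx
  -- the root
  obtain ⟨s, hs0, hsr⟩ : ∃ s : PowerSeries (FractionRing A), PowerSeries.constantCoeff s = φ x₀ ∧
      Es t₀ s Lx = 0 := by
    have hev1 : ∀ q : A[X][X], (q.map (psi t₀)).eval (PowerSeries.C (φ x₀)) =
        Es t₀ (PowerSeries.C (φ x₀)) q := by
      intro q
      rw [eval_map]
      rfl
    have hcc : ∀ q : A[X][X], PowerSeries.constantCoeff (Es t₀ (PowerSeries.C (φ x₀)) q) =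
        φ ((q.map ev).eval x₀) := fun q =>
      Es_const t₀ x₀ _ (PowerSeries.constantCoeff_C _) q
    obtain ⟨s, hs1, hs2⟩ := Pool.Agent.Helper82.VX.exists_root (Lx.map (psi t₀)) (φ x₀) (by
        rw [hev1, hcc, hLx0]
        simp) (by
        rw [derivative_map, hev1, hcc, ← derivative_map, hLx0]
        have h2 : eval x₀ (derivative ((X - C x₀) * ((m : A[X]) * (∏ l, a₁ l) + (X - C x₀) *
            LamG ρ a₁ (fun l => derivative (a₁ l))))) = m * (∏ l, a₁ l).eval x₀ := by
          rw [derivative_mul, derivative_X_sub_C]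
          simp only [one_mul, eval_add, eval_mul, eval_sub, eval_X, eval_C, sub_self, zero_mul,
            add_zero, eval_natCast]
        rw [h2, map_mul, map_natCast]
        exact mul_ne_zero hm0 fun h => hne (hinj (by rw [h, map_zero])))
    refine ⟨s, hs1, ?_⟩
    rw [eval_map] at hs2
    exact hs2
  set α : ι → PowerSeries (FractionRing A) := fun l => Es t₀ s (a l) with hα
  set α' : ι → PowerSeries (FractionRing A) := fun l => Es t₀ s (derivative (a l)) with hα'
  have hEx : LamG ρ α α' = 0 := by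
    rw [← hsr, hLx, LamG_map]
  have hEp : Es t₀ s (∏ i, a i) = ∏ i, α i := by
    rw [map_prod]
  have hcast : ∀ n : ℕ, n ≠ 0 → (n : PowerSeries (FractionRing A)) ≠ 0 := by
    intro n hn
    rw [← map_natCast (PowerSeries.C (R := (FractionRing A)))]
    intro h
    have h2 := congrArg (PowerSeries.constantCoeff (R := (FractionRing A))) h
    rw [PowerSeries.constantCoeff_C, map_zero] at h2
    have h3 : (n : FractionRing A) ≠ 0 := by exact_mod_cast hn
    exact h3 h2
  -- the `α l` are not zero
  have hαne : ∀ l, α l ≠ 0 := by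
    intro l hl
    obtain ⟨u, v, c, hc, huv⟩ := Pool.Agent.Helper15.CX.cop_clear (∏ i, a i)
      (derivative (∏ i, a i)) (by
        rw [← derivative_map]
        exact hsepF)
    have h2 := congrArg (Es t₀ s) huv
    rw [map_add, map_mul, map_mul, hEp, derivative_prodG, LamG_map, prod_eq_zero (mem_univ l) hl,
      mul_zero, zero_add] at h2
    have h3 : LamG (fun _ => 1) α α' = 0 := by
      have h4 := LamG_of_zero ρ α α' l hl
      rw [hEx, mul_assoc] at h4
      have h5 := (mul_eq_zero.1 h4.symm).resolve_left (hcast (ρ l) (hρ l).1.ne')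
      rw [LamG_of_zero (fun _ => 1) α α' l hl, mul_assoc, h5, mul_zero]
    rw [h3, mul_zero] at h2
    have h6 : Es t₀ s (C c) = psi t₀ c := by simp [Es]
    rw [h6] at h2
    exact hc (psi_inj t₀ (by rw [← h2, map_zero]))
  choose n β hn hβ using fun l => Pool.Agent.Helper82.VX.exists_order (α l) (hαne l)
  have hn1 : 0 < n i₁ := by
    rcases Nat.eq_zero_or_pos (n i₁) with h | h
    · exfalso
      apply hβ i₁
      have h2 := hn i₁
      rw [h, pow_zero, one_mul] at h2
      rw [← h2, hα]
      change PowerSeries.constantCoeff (Es t₀ s (a i₁)) = 0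
      rw [Es_const t₀ x₀ s hs0, ← hev, ha0 i₁, if_pos (Or.inl rfl)]
      simp
    · exact h
  refine ⟨∑ l, ρ l * n l, ?_, ?_⟩
  · exact lt_of_lt_of_le (Nat.mul_pos (hρ i₁).1 hn1)
      (single_le_sum (f := fun l => ρ l * n l) (fun _ _ => Nat.zero_le _) (mem_univ i₁))
  intro P S w l hrel
  have h2 := congrArg (Es t₀ s) hrel
  simp only [map_add, map_mul, map_pow, map_natCast] at h2
  rw [hsr, mul_zero, add_zero, hEp] at h2
  have hEC : ∀ q : A[X], Es t₀ s (C q) = psi t₀ q := fun q => by simp [Es]
  have hEX : Es t₀ s X = s := by simp [Es]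
  rw [hEC, hEC, hEX, psi_lin, LamG_map] at h2
  -- the derivatives
  have h3 : LamG ρ α (fun i => PowerSeries.derivative (FractionRing A) (α i)) =
      LamG ρ α (fun i => Es t₀ s (dt (a i))) := by
    have e1 : (fun i => PowerSeries.derivative (FractionRing A) (α i)) =
        fun i => Es t₀ s (dt (a i)) + α' i * PowerSeries.derivative (FractionRing A) s := by
      funext i
      exact Es_der t₀ s (a i)
    rw [e1, LamG_add, LamG_smul, hEx, zero_mul, add_zero]
  set γ : ι → PowerSeries (FractionRing A) := fun i => (n i : PowerSeries (FractionRing A)) * β i +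
    PowerSeries.X * PowerSeries.derivative (FractionRing A) (β i) with hγ
  have h4 : PowerSeries.X * LamG ρ α (fun i => PowerSeries.derivative (FractionRing A) (α i)) =
      (∏ i, (PowerSeries.X : PowerSeries (FractionRing A)) ^ n i) * LamG ρ β γ := by
    rw [mul_comm, ← LamG_smul, ← LamG_scale]
    congr 1
    · funext i
      exact hn i
    · funext i
      rw [mul_comm, hn i, X_mul_der]
  have h5 : ∏ i, α i = (∏ i, (PowerSeries.X : PowerSeries (FractionRing A)) ^ n i) *
      ∏ i, β i := by
    rw [← prod_mul_distrib]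
    exact prod_congr rfl fun i _ => hn i
  have h6 : (∏ i, (PowerSeries.X : PowerSeries (FractionRing A)) ^ n i) *
      ((m : PowerSeries (FractionRing A)) * Es t₀ s P * ∏ i, β i) =
      (∏ i, (PowerSeries.X : PowerSeries (FractionRing A)) ^ n i) *
        (psi t₀ w * s ^ l * LamG ρ β γ) := by
    rw [← h3] at h2
    rw [h5] at h2
    linear_combination h2 + psi t₀ w * s ^ l * h4
  have hXX : (∏ i, (PowerSeries.X : PowerSeries (FractionRing A)) ^ n i) ≠ 0 :=
    prod_ne_zero_iff.2 fun i _ => pow_ne_zero _ PowerSeries.X_ne_zero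
  have h7 := congrArg (PowerSeries.constantCoeff (R := (FractionRing A))) (mul_left_cancel₀ hXX h6)
  have h8 : PowerSeries.constantCoeff (LamG ρ β γ) = ((∑ l, ρ l * n l : ℕ) : FractionRing A) *
      ∏ i, PowerSeries.constantCoeff (β i) := by
    rw [LamG_map, ← LamG_log]
    congr 1
    funext i
    rw [hγ]
    simp
  rw [map_mul, map_mul, map_mul, map_mul, h8, map_prod, map_natCast, map_pow, hs0, psi_const,
    Es_const t₀ x₀ s hs0] at h7
  apply hinj
  have h9 : ∏ i, PowerSeries.constantCoeff (β i) ≠ 0 := prod_ne_zero_iff.2 fun i _ => hβ i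
  apply mul_right_cancel₀ h9
  rw [map_mul, map_mul, map_mul, map_natCast, map_natCast, map_pow]
  linear_combination h7

end

end Pool.Agent.Helper15.GX
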